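import Pool.Agent.helper76.DP.Spec

/-!
# MP_bf63dc_nt, PROJECT DP, row CRM: the number of the pairs of units is multiplicative
-/

set_option autoImplicit false

namespace Pool.Agent.DP

open Finset

/-- **Row CRM.** -/
theorem CRM : CRM_stmt := by
  intro m n a b _ _ _ κ hmn
  set e := ZMod.chineseRemainder hmn with he
  let φ : (ZMod (m * n))ˣ ≃* (ZMod m)ˣ × (ZMod n)ˣ := (Units.mapEquiv e.toMulEquiv).trans MulEquiv.prodUnits
  have h1 : ∀ z : (ZMod (m * n))ˣ, ((φ z).1 : ZMod m) = (e (z : ZMod (m * n))).1 := fun z => rfl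
  have h2 : ∀ z : (ZMod (m * n))ˣ, ((φ z).2 : ZMod n) = (e (z : ZMod (m * n))).2 := fun z => rfl
  let F := (φ.toEquiv.prodCongr φ.toEquiv).trans (Equiv.prodProdProdComm _ _ _ _)
  unfold Nu
  rw [← Finset.card_product]
  refine Finset.card_equiv F fun p => ?_
  simp only [mem_filter, mem_univ, true_and, mem_product]
  show _ ↔ ((a : ZMod m) * ((φ p.1).1 : ZMod m) - b * ((φ p.2).1 : ZMod m) = κ) ∧ ((a : ZMod n) * ((φ p.1).2 : ZMod n) - b * ((φ p.2).2 : ZMod n) = κ)
  rw [h1, h1, h2, h2, ← e.injective.eq_iff]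
  rw [map_sub, map_mul, map_mul, map_natCast, map_natCast, map_intCast, Prod.ext_iff]
  simp

end Pool.Agent.DP
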